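import Pool.Agent.BarCx.Main

open scoped ENNReal

namespace Pool.Agent.Results.MP_5c7eee_an.ApproxPlusJohnson

universe u v

/-- For every complex Banach space `E` and every `1 ≤ p < ∞`, the algebra of approximable operators
on `E ⊕ C_p` is H-unital, where `C_p` is the `ℓ_p`-sum of a sequence `G` of finite-dimensional
normed spaces that is dense for the Banach-Mazur distance. -/
theorem result (E : Type u) [NormedAddCommGroup E] [NormedSpace ℂ E] [CompleteSpace E]
    (G : ℕ → Type v) [∀ n, NormedAddCommGroup (G n)] [∀ n, NormedSpace ℂ (G n)]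
    [∀ n, FiniteDimensional ℂ (G n)] (hG : BarCx.BanachMazurDense G)
    (p : ℝ≥0∞) [Fact (1 ≤ p)] (hp : p ≠ ∞) :
    BarCx.ApproxHUnital (E × lp G p) :=
  BarCx.hunital_approx_prod E G hG p hp

end Pool.Agent.Results.MP_5c7eee_an.ApproxPlusJohnson
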