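import Pool.Agent.Lib.MP_5c7eee_an.Final

namespace Pool.Agent.Results.MP_5c7eee_an.CompactNotIdempotent

/-- There is a complex Banach space `E` such that neither the algebra `K(E)` of compact operators
nor the algebra `F(E)` of approximable operators is H-unital. In fact some approximable operator
on `E` is not a finite linear combination of products of two compact operators. -/
theorem result : ∃ (E : Type) (_ : NormedAddCommGroup E) (_ : NormedSpace ℂ E)
    (_ : CompleteSpace E),
    (∃ T : E →L[ℂ] E, T ∈ BarCx.opApprox E ∧
      T ∉ Submodule.span ℂ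
        {S : E →L[ℂ] E | ∃ A B : E →L[ℂ] E, IsCompactOperator A ∧ IsCompactOperator B ∧ S = A * B}) ∧
      ¬ BarCx.CompactHUnital E ∧ ¬ BarCx.ApproxHUnital E :=
  HUC.final

end Pool.Agent.Results.MP_5c7eee_an.CompactNotIdempotent
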