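import Pool.Agent.BarCx.CptMain

open scoped ENNReal

namespace Pool.Agent.Results.MP_5c7eee_an.CompactPlusUniversal

universe u v

/-- Let `C_p` be the `ℓ_p`-sum of a sequence `G` of finite-dimensional normed spaces that is dense
for the Banach-Mazur distance, and let `U` be the `ℓ_q`-sum of all closed linear subspaces of
`C_p`, where `1 ≤ p ≤ ∞` and `1 ≤ q ≤ ∞`. For every complex Banach space `E`, the algebra
`K(E ⊕ U)` of compact operators on `E ⊕ U` is H-unital. -/
theorem result (E : Type u) [NormedAddCommGroup E] [NormedSpace ℂ E] [CompleteSpace E]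
    (G : ℕ → Type v) [∀ n, NormedAddCommGroup (G n)] [∀ n, NormedSpace ℂ (G n)]
    [∀ n, FiniteDimensional ℂ (G n)] (hG : BarCx.BanachMazurDense G)
    (p q : ℝ≥0∞) [Fact (1 ≤ p)] [Fact (1 ≤ q)] :
    BarCx.CompactHUnital (E × BarCx.AllSub (lp G p) q) := by
  have h1 : ∀ n, CompleteSpace (G n) := fun n => FiniteDimensional.complete ℂ (G n)
  have h2 : ∀ F : BarCx.ClosedSub (lp G p), CompleteSpace (BarCx.SubSpace (lp G p) F) :=
    fun F => F.2.completeSpace_coe
  exact BarCx.compactHUnital_of hG p (BarCx.hasSubspaces_prod E (lp G p) q)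

end Pool.Agent.Results.MP_5c7eee_an.CompactPlusUniversal
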